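import Pool.Agent.Helper87.MX.Fr
import Pool.Agent.Helper61.RH.Circle

/-!
# MixingRates, piece E2: the dyadic entropy step
-/

set_option autoImplicit false

open MeasureTheory Finset Filter

namespace Pool.Agent.Helper82.MX

open Pool.Agent.Helper87.MX

theorem mem_arc (K i : ℕ) (x : Tor) : x ∈ arc K i ↔ Helper75.RE.idx K x = i % 2 ^ K :=
  Helper75.RE.mem_arc_iff K i x

theorem measurable_arc (K i : ℕ) : MeasurableSet (arc K i) := Helper75.RE.measurableSet_arc K i

/-- the index of `2 x` -/
theorem idx_two (K : ℕ) (x : Tor) :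
    Helper75.RE.idx K ((2 : ℕ) • x) = Helper75.RE.idx (K + 1) x % 2 ^ K := by
  obtain ⟨i, hi⟩ : ∃ i, i = Helper75.RE.idx (K + 1) x := ⟨_, rfl⟩
  have hlt : i < 2 ^ (K + 1) := by
    rw [hi]
    exact Helper75.RE.idx_lt _ _
  have h1 : x ∈ Helper75.RE.arc (K + 1) i := by
    rw [Helper75.RE.mem_arc_iff, Nat.mod_eq_of_lt hlt]
    exact hi.symm
  obtain ⟨t, ht, rfl⟩ := h1
  rw [← hi, ← Helper75.RE.mem_arc_iff]
  have h2 : (0 : ℝ) < 2 ^ K := by positivity
  refine ⟨2 * t, ⟨?_, ?_⟩, ?_⟩
  · have := ht.1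
    rw [pow_succ, div_le_iff₀ (by positivity)] at this
    rw [div_le_iff₀ h2]
    linarith
  · have := ht.2
    rw [pow_succ, lt_div_iff₀ (by positivity)] at this
    rw [lt_div_iff₀ h2]
    linarith
  · show ((2 * t : ℝ) : Tor) = (2 : ℕ) • (t : Tor)
    rw [← AddCircle.coe_nsmul, nsmul_eq_mul]
    push_cast
    rfl

/-- two dyadic arcs with different indices are disjoint -/
theorem disjoint_arc {K i j : ℕ} (hi : i < 2 ^ K) (hj : j < 2 ^ K) (hij : i ≠ j) :
    Disjoint (arc K i) (arc K j) := by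
  refine Set.disjoint_left.2 fun x hx hx' => hij ?_
  rw [mem_arc, Nat.mod_eq_of_lt hi] at hx
  rw [mem_arc, Nat.mod_eq_of_lt hj] at hx'
  exact hx.symm.trans hx'

/-- the mass of an arc is the sum of the masses of its halves under `x ↦ 2 x` -/
theorem real_arc_two {μ : Measure Tor} [IsProbabilityMeasure μ] (h : Inv 2 μ) (K : ℕ) {i : ℕ}
    (hi : i < 2 ^ K) : μ.real (arc K i) = μ.real (arc (K + 1) i) +
      μ.real (arc (K + 1) (i + 2 ^ K)) := by
  have hp : 2 ^ (K + 1) = 2 ^ K + 2 ^ K := by ring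
  have h1 : (fun x : Tor => (2 : ℕ) • x) ⁻¹' arc K i =
      arc (K + 1) i ∪ arc (K + 1) (i + 2 ^ K) := by
    ext x
    rw [Set.mem_preimage, Set.mem_union, mem_arc, mem_arc, mem_arc, idx_two,
      Nat.mod_eq_of_lt hi, Nat.mod_eq_of_lt (show i < 2 ^ (K + 1) by omega),
      Nat.mod_eq_of_lt (show i + 2 ^ K < 2 ^ (K + 1) by omega)]
    have hlt := Helper75.RE.idx_lt (K + 1) x
    obtain ⟨m, hm⟩ : ∃ m, m = Helper75.RE.idx (K + 1) x := ⟨_, rfl⟩
    rw [← hm] at hlt ⊢
    constructor
    · intro h2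
      rcases Nat.lt_or_ge m (2 ^ K) with h3 | h3
      · left
        rwa [Nat.mod_eq_of_lt h3] at h2
      · right
        rw [Nat.mod_eq_sub_mod h3, Nat.mod_eq_of_lt (by omega)] at h2
        omega
    · rintro (rfl | rfl)
      · exact Nat.mod_eq_of_lt hi
      · rw [Nat.add_mod_right]
        exact Nat.mod_eq_of_lt hi
  have h2 := (show MeasurePreserving (fun x : Tor => (2 : ℕ) • x) μ μ from h).measure_preimage
    (measurable_arc K i).nullMeasurableSet
  rw [h1] at h2
  rw [measureReal_def, ← h2, ← measureReal_def]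
  exact measureReal_union (disjoint_arc (by omega) (by omega) (by
    have : 0 < 2 ^ K := by positivity
    omega)) (measurable_arc _ _)

/-- the inequality for one pair -/
theorem pair_le {a b κ : ℝ} (ha : 0 ≤ a) (hb : 0 ≤ b) (h0 : 0 < κ) (h1 : κ ≤ 1) :
    Real.negMulLog a + Real.negMulLog b ≤ Real.negMulLog (a + b) +
      ((a + b) * κ + b * (-Real.log κ)) := by
  have hl : 0 ≤ -Real.log κ := by
    have := Real.log_nonpos h0.le h1
    linarith
  rcases ha.eq_or_lt with h | h
  · rw [← h, Real.negMulLog_zero, zero_add, zero_add]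
    have : 0 ≤ b * κ + b * (-Real.log κ) := by positivity
    linarith
  rcases hb.eq_or_lt with h' | h'
  · rw [← h', Real.negMulLog_zero, add_zero, add_zero]
    have : 0 ≤ a * κ + 0 * (-Real.log κ) := by positivity
    linarith
  have hs : 0 < a + b := by linarith
  have e1 : a * (Real.log (a + b) - Real.log a) ≤ b := by
    rw [← Real.log_div hs.ne' h.ne']
    have := Real.log_le_sub_one_of_pos (show 0 < (a + b) / a by positivity)
    calc a * Real.log ((a + b) / a) ≤ a * ((a + b) / a - 1) :=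
          mul_le_mul_of_nonneg_left this h.le
      _ = b := by field_simp; ring
  have e2 : b * (Real.log (a + b) + Real.log κ - Real.log b) ≤ (a + b) * κ - b := by
    rw [← Real.log_mul hs.ne' h0.ne', ← Real.log_div (by positivity) h'.ne']
    have := Real.log_le_sub_one_of_pos (show 0 < (a + b) * κ / b by positivity)
    calc b * Real.log ((a + b) * κ / b) ≤ b * ((a + b) * κ / b - 1) :=
          mul_le_mul_of_nonneg_left this h'.le
      _ = (a + b) * κ - b := by field_simp
  unfold Real.negMulLog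
  nlinarith

/-- **E2.** the dyadic entropy step -/
theorem s_E2 : S_E2 := by
  classical
  intro μ hμ hinv K G κ hsep hG hκ
  have hp : 2 ^ (K + 1) = 2 ^ K + 2 ^ K := by ring
  have hpos : 0 < 2 ^ K := by positivity
  have hκ0 : 0 ≤ κ := measureReal_nonneg.trans hG
  -- the arc in the complement of `G`
  obtain ⟨c, hc⟩ : ∃ c : ℕ → ℕ, ∀ i < 2 ^ K, (c i = i ∨ c i = i + 2 ^ K) ∧
      ∀ x ∈ arc (K + 1) (c i), x ∉ G := by
    have : ∀ i, ∃ j, i < 2 ^ K → (j = i ∨ j = i + 2 ^ K) ∧ ∀ x ∈ arc (K + 1) j, x ∉ G := by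
      intro i
      by_cases hi : i < 2 ^ K
      · rcases hsep i hi with h | h
        · exact ⟨i, fun _ => ⟨Or.inl rfl, h⟩⟩
        · exact ⟨i + 2 ^ K, fun _ => ⟨Or.inr rfl, h⟩⟩
      · exact ⟨i, fun h => absurd h hi⟩
    choose c hc using this
    exact ⟨c, hc⟩
  have hclt : ∀ i < 2 ^ K, c i < 2 ^ (K + 1) := by
    intro i hi
    rcases (hc i hi).1 with h | h <;> omega
  have hcsum : ∑ i ∈ range (2 ^ K), μ.real (arc (K + 1) (c i)) ≤ κ := by
    rw [← measureReal_biUnion_finset]
    · refine (measureReal_mono (μ := μ) ?_ (measure_ne_top _ _)).trans hG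
      intro x hx
      rw [Set.mem_iUnion₂] at hx
      obtain ⟨i, hi, hx⟩ := hx
      exact (hc i (Finset.mem_range.1 hi)).2 x hx
    · intro i hi j hj hij
      rw [Finset.mem_coe, Finset.mem_range] at hi hj
      refine disjoint_arc (hclt i hi) (hclt j hj) ?_
      intro h
      apply hij
      rcases (hc i hi).1 with h1 | h1 <;> rcases (hc j hj).1 with h2 | h2 <;> omega
    · exact fun i _ => measurable_arc _ _
  -- the sums
  have hent : ent μ (K + 1) = ∑ i ∈ range (2 ^ K), (Real.negMulLog (μ.real (arc (K + 1) i)) +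
      Real.negMulLog (μ.real (arc (K + 1) (i + 2 ^ K)))) := by
    unfold ent
    rw [hp, Finset.sum_range_add, ← Finset.sum_add_distrib]
    refine Finset.sum_congr rfl fun i _ => ?_
    rw [add_comm (2 ^ K) i]
  have hone : ∑ i ∈ range (2 ^ K), μ.real (arc K i) = 1 := Pool.Agent.Helper61.RH.sum_arc K
  rcases hκ0.eq_or_lt with h0 | h0
  · -- no mass outside `G`
    rw [← h0, Real.negMulLog_zero, add_zero, add_zero, hent]
    unfold ent
    refine le_of_eq (Finset.sum_congr rfl fun i hi => ?_)
    have h1 : ∀ i ∈ range (2 ^ K), μ.real (arc (K + 1) (c i)) = 0 := by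
      rw [← Finset.sum_eq_zero_iff_of_nonneg fun i _ => measureReal_nonneg]
      refine le_antisymm (hcsum.trans h0.ge) (Finset.sum_nonneg fun i _ => measureReal_nonneg)
    have h2 := h1 i hi
    rw [Finset.mem_range] at hi
    rw [real_arc_two hinv K hi]
    rcases (hc i hi).1 with h3 | h3
    · rw [h3] at h2
      rw [h2, Real.negMulLog_zero, zero_add, zero_add]
    · rw [h3] at h2
      rw [h2, Real.negMulLog_zero, add_zero, add_zero]
  · have hl : 0 ≤ -Real.log κ := by
      have := Real.log_nonpos h0.le hκ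
      linarith
    have hpair : ∀ i ∈ range (2 ^ K), Real.negMulLog (μ.real (arc (K + 1) i)) +
        Real.negMulLog (μ.real (arc (K + 1) (i + 2 ^ K))) ≤
          Real.negMulLog (μ.real (arc K i)) +
            (μ.real (arc K i) * κ + μ.real (arc (K + 1) (c i)) * (-Real.log κ)) := by
      intro i hi
      rw [Finset.mem_range] at hi
      rw [real_arc_two hinv K hi]
      rcases (hc i hi).1 with h3 | h3
      · rw [h3]
        have := pair_le (a := μ.real (arc (K + 1) (i + 2 ^ K))) (b := μ.real (arc (K + 1) i))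
          measureReal_nonneg measureReal_nonneg h0 hκ
        rw [add_comm (μ.real (arc (K + 1) (i + 2 ^ K)))] at this
        linarith
      · rw [h3]
        exact pair_le measureReal_nonneg measureReal_nonneg h0 hκ
    rw [hent]
    refine (Finset.sum_le_sum hpair).trans ?_
    rw [Finset.sum_add_distrib, Finset.sum_add_distrib, ← Finset.sum_mul, ← Finset.sum_mul, hone,
      one_mul]
    have h1 : (∑ i ∈ range (2 ^ K), μ.real (arc (K + 1) (c i))) * (-Real.log κ) ≤
        κ * (-Real.log κ) := mul_le_mul_of_nonneg_right hcsum hl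
    have h2 : κ * (-Real.log κ) = Real.negMulLog κ := by
      unfold Real.negMulLog
      ring
    rw [h2] at h1
    unfold ent
    linarith

end Pool.Agent.Helper82.MX
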