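import Mathlib

/-!
# MixingRates, P6: S-units in windows
-/

set_option autoImplicit false

namespace Pool.Agent.Helper82.MX

open Real

theorem log3_ne (n : ℕ) (m : ℤ) (hn : 0 < n) : (n : ℝ) * log 3 ≠ m * log 2 := by
  intro h
  have h2 : 0 < log 2 := log_pos (by norm_num)
  have h3 : 0 < log 3 := log_pos (by norm_num)
  have hm : 0 < m := by
    have h4 : (0 : ℝ) < m * log 2 := by rw [← h]; positivity
    have h5 : (0 : ℝ) < m := by
      by_contra hc
      push Not at hc
      nlinarith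
    exact_mod_cast h5
  obtain ⟨k, rfl⟩ := Int.eq_ofNat_of_zero_le hm.le
  have h6 : log ((3 : ℝ) ^ n) = log ((2 : ℝ) ^ k) := by
    rw [log_pow, log_pow]
    exact_mod_cast h
  have h7 : (3 : ℝ) ^ n = (2 : ℝ) ^ k :=
    log_injOn_pos (by simp) (by simp) h6
  have h8 : (3 : ℕ) ^ n = 2 ^ k := by exact_mod_cast h7
  have h9 : k ≠ 0 := by
    rintro rfl
    simp at hm
  have h10 : 2 ∣ 3 ^ n := by rw [h8]; exact dvd_pow_self 2 h9
  have h11 := Nat.Prime.dvd_of_dvd_pow Nat.prime_two h10
  omega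

/-- small differences -/
theorem exists_small (η : ℝ) (hη : 0 < η) :
    ∃ (n : ℕ) (m : ℤ), 0 < n ∧ |(n : ℝ) * log 3 - m * log 2| < η := by
  have h2 : 0 < log 2 := log_pos (by norm_num)
  obtain ⟨N, hN⟩ := exists_nat_gt (log 2 / η)
  have hN0 : 0 < N := by
    have : (0 : ℝ) < N := lt_trans (by positivity) hN
    exact_mod_cast this
  obtain ⟨m, k, hk0, hkN, hk⟩ := Real.exists_int_int_abs_mul_sub_le (log 3 / log 2) hN0
  refine ⟨k.toNat, m, by omega, ?_⟩
  have hk1 : ((k.toNat : ℕ) : ℝ) = (k : ℝ) := by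
    have : ((k.toNat : ℕ) : ℤ) = k := Int.toNat_of_nonneg hk0.le
    exact_mod_cast this
  rw [hk1]
  have h3 : (k : ℝ) * log 3 - m * log 2 = ((k : ℝ) * (log 3 / log 2) - m) * log 2 := by
    field_simp
  rw [h3, abs_mul, abs_of_pos h2]
  have h4 : |(k : ℝ) * (log 3 / log 2) - m| ≤ 1 / (N + 1) := hk
  have h5 : (1 : ℝ) / (N + 1) * log 2 < η := by
    rw [div_mul_eq_mul_div, one_mul, div_lt_iff₀ (by positivity)]
    rw [div_lt_iff₀ hη] at hN
    nlinarith
  calc _ ≤ 1 / ((N : ℝ) + 1) * log 2 := by gcongr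
    _ < η := h5

/-- **P6**: S-units in windows -/
theorem su_window (η : ℝ) (hη : 0 < η) : ∃ L : ℕ, 0 < L ∧ ∀ (U : ℝ) (b0 : ℕ),
    ((b0 : ℝ) + L) * log 3 ≤ U → ∃ a b : ℕ, b0 ≤ b ∧ b < b0 + L ∧
      U ≤ a * log 2 + b * log 3 ∧ a * log 2 + b * log 3 < U + η := by
  have h2 : 0 < log 2 := log_pos (by norm_num)
  have h3 : 0 < log 3 := log_pos (by norm_num)
  obtain ⟨n, m, hn, hnm⟩ := exists_small η hη
  set δ := (n : ℝ) * log 3 - m * log 2 with hδ
  have hδ0 : δ ≠ 0 := sub_ne_zero.2 (log3_ne n m hn)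
  obtain ⟨M, hM⟩ := exists_nat_gt (log 2 / |δ| + 1)
  have habs : 0 < |δ| := abs_pos.2 hδ0
  refine ⟨n * M + 1, by omega, fun U b0 hU => ?_⟩
  set v := U - b0 * log 3 with hv
  -- find k ≤ M and an integer a' with a' log 2 - η < v - k δ ≤ a' log 2
  obtain ⟨k, a', hk, h4, h5⟩ : ∃ (k : ℕ) (a' : ℤ), k ≤ M ∧ v - k * δ ≤ a' * log 2 ∧
      a' * log 2 - η < v - k * δ := by
    rcases lt_or_gt_of_ne hδ0 with hneg | hpos
    · have hd : |δ| = -δ := abs_of_neg hneg
      set a' := ⌈v / log 2⌉ with ha'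
      have h6 : v ≤ a' * log 2 := by
        rw [← div_le_iff₀ h2]; exact Int.le_ceil _
      have h7 : a' * log 2 < v + log 2 := by
        have := Int.ceil_lt_add_one (v / log 2)
        rw [← ha', ← sub_lt_iff_lt_add, lt_div_iff₀ h2] at this
        nlinarith
      set k := ⌊(a' * log 2 - v) / |δ|⌋₊ with hk
      have h8 : (k : ℝ) ≤ (a' * log 2 - v) / |δ| := Nat.floor_le (by
        apply div_nonneg _ habs.le
        linarith)
      have h9 : (a' * log 2 - v) / |δ| < k + 1 := Nat.lt_floor_add_one _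
      rw [le_div_iff₀ habs] at h8
      rw [div_lt_iff₀ habs] at h9
      refine ⟨k, a', ?_, ?_, ?_⟩
      · have h10 : (k : ℝ) ≤ M := by
          have h11 : (k : ℝ) ≤ log 2 / |δ| := by
            rw [le_div_iff₀ habs]; linarith
          linarith
        exact_mod_cast h10
      · rw [hd] at h8; linarith
      · rw [hd] at h9
        have h12 : -δ < η := by rw [← hd]; exact hnm
        nlinarith
    · have hd : |δ| = δ := abs_of_pos hpos
      set a' := ⌊v / log 2⌋ with ha'
      have h6 : a' * log 2 ≤ v := by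
        rw [← le_div_iff₀ h2]; exact Int.floor_le _
      have h7 : v < a' * log 2 + log 2 := by
        have := Int.lt_floor_add_one (v / log 2)
        rw [← ha', div_lt_iff₀ h2] at this
        nlinarith
      set k := ⌈(v - a' * log 2) / |δ|⌉₊ with hk
      have h8 : (v - a' * log 2) / |δ| ≤ k := Nat.le_ceil _
      have h9 : (k : ℝ) < (v - a' * log 2) / |δ| + 1 := Nat.ceil_lt_add_one (by
        apply div_nonneg _ habs.le
        linarith)
      refine ⟨k, a', ?_, ?_, ?_⟩
      · have h10 : (k : ℝ) ≤ M := by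
          have h11 : (v - a' * log 2) / |δ| ≤ log 2 / |δ| := by
            apply div_le_div_of_nonneg_right _ habs.le
            linarith
          linarith
        exact_mod_cast h10
      · rw [div_le_iff₀ habs, hd] at h8; linarith
      · have h13 : (k : ℝ) * |δ| < (v - a' * log 2) + |δ| := by
          have := mul_lt_mul_of_pos_right h9 habs
          rwa [add_mul, div_mul_cancel₀ _ habs.ne', one_mul] at this
        rw [hd] at h13
        have h12 : δ < η := by rw [← hd]; exact hnm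
        linarith
  have hkM : (k : ℝ) ≤ M := by exact_mod_cast hk
  have hb : b0 + k * n < b0 + (n * M + 1) := by
    have : k * n ≤ n * M := by rw [mul_comm n M]; exact Nat.mul_le_mul_right _ hk
    omega
  have h14 : 0 ≤ a' - k * m := by
    by_contra hc
    push Not at hc
    have h15 : ((a' - k * m : ℤ) : ℝ) ≤ -1 := by exact_mod_cast (by omega : a' - k * m ≤ -1)
    push_cast at h15
    have h16 : ((b0 : ℝ) + (k * n)) ≤ (b0 : ℝ) + ((n * M + 1 : ℕ) : ℝ) := by
      exact_mod_cast hb.le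
    have h17 : ((b0 : ℝ) + (k * n)) * log 3 ≤ U := (mul_le_mul_of_nonneg_right h16 h3.le).trans hU
    have h18 : (a' : ℝ) * log 2 - k * m * log 2 ≤ -1 * log 2 := by
      have := mul_le_mul_of_nonneg_right h15 h2.le
      linarith
    have h19 : v - k * δ = U - (b0 + k * n) * log 3 + k * m * log 2 := by
      rw [hv, hδ]; ring
    linarith
  refine ⟨(a' - k * m).toNat, b0 + k * n, by omega, hb, ?_, ?_⟩
  · have h20 : (((a' - k * m).toNat : ℕ) : ℝ) = a' - k * m := by
      have : (((a' - k * m).toNat : ℕ) : ℤ) = a' - k * m := Int.toNat_of_nonneg h14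
      exact_mod_cast this
    rw [h20]
    push_cast
    have h19 : v - k * δ = U - (b0 + k * n) * log 3 + k * m * log 2 := by
      rw [hv, hδ]; ring
    linarith
  · have h20 : (((a' - k * m).toNat : ℕ) : ℝ) = a' - k * m := by
      have : (((a' - k * m).toNat : ℕ) : ℤ) = a' - k * m := Int.toNat_of_nonneg h14
      exact_mod_cast this
    rw [h20]
    push_cast
    have h19 : v - k * δ = U - (b0 + k * n) * log 3 + k * m * log 2 := by
      rw [hv, hδ]; ring
    linarith

end Pool.Agent.Helper82.MX
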