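import Pool.Agent.Helper82.MX.Window

/-!
# MixingRates, P6: S-units in windows, with congruences
-/

set_option autoImplicit false

namespace Pool.Agent.Helper82.MX

open Real

/-- every residue class has a point in every window far out -/
theorem su_window_mod (η : ℝ) (hη : 0 < η) (m : ℕ) (hm : 0 < m) : ∃ U0 : ℝ, ∀ U : ℝ, U0 ≤ U →
    ∀ r s : ℕ, ∃ a b : ℕ, a ≡ r [MOD m] ∧ b ≡ s [MOD m] ∧
      U ≤ a * log 2 + b * log 3 ∧ a * log 2 + b * log 3 < U + η := by
  have h2 : 0 < log 2 := log_pos (by norm_num)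
  have h3 : 0 < log 3 := log_pos (by norm_num)
  have hm' : (0 : ℝ) < m := by exact_mod_cast hm
  obtain ⟨L, hL, h⟩ := su_window (η / m) (by positivity)
  refine ⟨m * (L * log 3) + m * log 2 + m * log 3, fun U hU r s => ?_⟩
  set r' := r % m with hr
  set s' := s % m with hs
  have hr1 : (r' : ℝ) ≤ m := by exact_mod_cast (Nat.mod_lt r hm).le
  have hs1 : (s' : ℝ) ≤ m := by exact_mod_cast (Nat.mod_lt s hm).le
  obtain ⟨a, b, -, -, h4, h5⟩ := h ((U - r' * log 2 - s' * log 3) / m) 0 (by
    rw [le_div_iff₀ hm']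
    have := mul_le_mul_of_nonneg_right hr1 h2.le
    have := mul_le_mul_of_nonneg_right hs1 h3.le
    push_cast
    nlinarith)
  refine ⟨r' + m * a, s' + m * b, ?_, ?_, ?_, ?_⟩
  · unfold Nat.ModEq
    rw [Nat.add_mul_mod_self_left, hr, Nat.mod_mod]
  · unfold Nat.ModEq
    rw [Nat.add_mul_mod_self_left, hs, Nat.mod_mod]
  · rw [div_le_iff₀ hm'] at h4
    push_cast
    nlinarith
  · rw [← sub_lt_iff_lt_add] at h5
    have h6 : a * log 2 + b * log 3 - η / m < (U - r' * log 2 - s' * log 3) / m := by linarith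
    rw [lt_div_iff₀ hm'] at h6
    have h7 : (a * log 2 + b * log 3 - η / m) * m = m * a * log 2 + m * b * log 3 - η := by
      field_simp
    push_cast
    nlinarith

end Pool.Agent.Helper82.MX
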